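import Pool.Agent.MP_caba0b_al.H43.Inv0

/-! Narrowing of the strips. -/

namespace Pool.Agent.MP_caba0b_al.H20

open Equiv H43

lemma df_add_rho (S : Side) (ν : Fin S.n → ℝ) (ξ : ℂ) : S.df (ν + S.rho ξ) = S.df ν := by
  have h1 := Side.ip_pR (S := S) ν ξ
  have h2 := Side.rho_dot (S := S) ξ ξ
  have h3 : ∑ i, (ν + S.rho ξ) i ^ 2 =
      ∑ i, ν i ^ 2 + 2 * ∑ i, ν i * S.rho ξ i + ∑ i, S.rho ξ i * S.rho ξ i := by
    simp only [Finset.mul_sum, ← Finset.sum_add_distrib]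
    exact Finset.sum_congr rfl fun i _ => by simp only [Pi.add_apply]; ring
  rw [Side.df, Side.df, h3, ← h1, h2, Side.pR_add, Side.pR_rho, nsq_c, nsq_c, ip_eq, ip_eq]
  simp only [Complex.add_re, Complex.add_im, Complex.re_ofReal_mul, Complex.im_ofReal_mul]
  ring

lemma exists_section (S : Side) : ∃ (D : ℝ) (lam : GaussianInt → Wt S.n), 0 ≤ D ∧ ∀ μ,
    S.push (lam μ) = μ ∧ S.N * nsq (lam μ) - (μ.norm : ℝ) ≤ D ^ 2 := by
  choose σ hσ using S.surj
  obtain ⟨B, hB⟩ := ((finite_norm_le (2 * (S.N : ℝ) ^ 2)).image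
    fun μ => S.df fun i => σ μ i).bddAbove
  have hN : (0 : ℤ) < S.N := by exact_mod_cast S.hN
  let q : GaussianInt → GaussianInt := fun μ => ⟨μ.re / S.N, μ.im / S.N⟩
  let r : GaussianInt → GaussianInt := fun μ => ⟨μ.re % S.N, μ.im % S.N⟩
  let lam : GaussianInt → Wt S.n := fun μ i => σ (r μ) i + (q μ * star (S.a i)).re
  have hc : ∀ μ, (fun i => (lam μ i : ℝ)) = (fun i => (σ (r μ) i : ℝ)) + S.rho (q μ) := by
    intro μ
    funext i
    simp only [lam, Pi.add_apply, Side.rho_int]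
    push_cast
    rfl
  have hp : ∀ μ, S.push (lam μ) = μ := by
    intro μ
    rw [← GaussianInt.toComplex_inj, Side.push_cast', hc, Side.pR_add, Side.pR_rho,
      ← Side.push_cast', Side.push, hσ]
    have e : μ = r μ + (S.N : GaussianInt) * q μ := by
      ext
      · simp only [r, q, Zsqrtd.re_add, Zsqrtd.re_mul, Zsqrtd.re_natCast, Zsqrtd.im_natCast]
        have := Int.emod_add_mul_ediv μ.re S.N
        linarith
      · simp only [r, q, Zsqrtd.im_add, Zsqrtd.im_mul, Zsqrtd.re_natCast, Zsqrtd.im_natCast]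
        have := Int.emod_add_mul_ediv μ.im S.N
        linarith
    conv_rhs => rw [e]
    simp
  refine ⟨|B| + 1, lam, by positivity, fun μ => ⟨hp μ, ?_⟩⟩
  have h1 := S.df_cast (lam μ)
  rw [hp, hc, df_add_rho] at h1
  have h2 : S.df (fun i => σ (r μ) i) ≤ B := by
    refine hB ⟨r μ, ?_, rfl⟩
    have a1 := Int.emod_nonneg μ.re hN.ne'
    have a2 := Int.emod_lt_of_pos μ.re hN
    have a3 := Int.emod_nonneg μ.im hN.ne'
    have a4 := Int.emod_lt_of_pos μ.im hN
    have : (r μ).norm ≤ 2 * (S.N : ℤ) ^ 2 := by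
      rw [Zsqrtd.norm_def]
      simp only [r]
      nlinarith
    show ((r μ).norm : ℝ) ≤ _
    exact_mod_cast this
  rw [← h1]
  nlinarith [le_abs_self B, abs_nonneg B]

lemma act_inj {ζ : GaussianInt} (hζ : ζ.norm = 1) (s : Bool) :
    Function.Injective (act ζ s) := by
  obtain ⟨ζ', -, -, h⟩ := act_surj hζ s
  exact Function.LeftInverse.injective h

lemma Phi_act (S : Side) {π : Perm (Fin S.n)} {ζ : GaussianInt} {s : Bool} (h : S.Glob π ζ s)
    {f : Wt S.n →₀ ℝ} (hf : Sym f) (μ : GaussianInt) :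
    S.Phi f (Sum.inl (act ζ s μ)) = S.Phi f (Sum.inl μ) := by
  classical
  simp only [Side.Phi, Finsupp.linearCombination_apply, Finsupp.sum, Finsupp.finsetSum_apply,
    Finsupp.smul_apply, Side.phi_inl]
  symm
  refine Finset.sum_bij' (fun ν _ => ν ∘ π) (fun ν _ => ν ∘ π.symm) (fun ν hν => ?_)
    (fun ν hν => ?_) (fun ν _ => ?_) (fun ν _ => ?_) (fun ν _ => ?_)
  · rwa [Finsupp.mem_support_iff, hf, ← Finsupp.mem_support_iff]
  · rwa [Finsupp.mem_support_iff, hf, ← Finsupp.mem_support_iff]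
  · funext i; simp
  · funext i; simp
  · rw [hf, h.push]
    simp only [(act_inj h.1 s).eq_iff]

lemma Om_act {m : ℕ} {ε c η : ℝ} (hP : Plane m ε c η) {R δ : ℝ} {ζ μ : GaussianInt}
    (hζ : ζ.norm = 1) (s : Bool) (h : Om m c R δ μ) : Om m c R δ (act ζ s μ) := by
  rcases h with h | ⟨h, u, hu, hc⟩
  · left
    rw [act_cast]
    exact hP.act s hζ h
  · refine Or.inr ⟨?_, act ζ s u, hu.act hζ s, ?_⟩
    · rw [act_cast]
      exact hP.act s hζ h
    · rw [act_cast, un_act hζ, cr_actC hζ]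
      exact hc

lemma land {S : Side} {m : ℕ} {ε c η κ : ℝ} (hC : Cst m ε c η κ) (hP : Plane m ε c η)
    (hG : S.G12 m ε c κ) {R D δ δ' : ℝ} (hD : 0 ≤ D) (hR : D ≤ κ * R)
    (hδ : (1 - ε / 2) * δ + D ≤ δ') {ν : Wt S.n}
    (hν : S.N * nsq ν - ((S.push ν).norm : ℝ) ≤ D ^ 2) (h1 : Om m c R δ (S.push ν))
    (h2 : ¬ Om m c R δ' (S.push ν)) : S.L m c R ν ∧ ∀ π : Perm (Fin S.n),
      (∃ ζ s, S.Glob π ζ s) ∨ Om m c R δ' (S.push (ν ∘ π)) := by
  have h3 : ¬ inP m c (c * R) (S.push ν) := fun h => h2 (Or.inl h)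
  obtain ⟨h4, u₀, hu₀, h5⟩ := h1.resolve_left h3
  obtain ⟨hL, hπ⟩ := hG R D ν hD hR h4 hν
  refine ⟨hL, fun π => ?_⟩
  rcases hπ π with h | h | ⟨u, v, hu, hv, -, h6, h7⟩
  · exact Or.inl h
  · exact Or.inr (Or.inl h)
  refine Or.inr (Or.inr ⟨hL.1 π, v, hv, h7.trans (le_trans ?_ hδ)⟩)
  have hε : ε ≤ 1 := by
    have a1 : (1 : ℝ) ≤ m := by exact_mod_cast hC.hm
    nlinarith [hC.sep, hC.e0, mul_le_mul_of_nonneg_left (one_le_pow₀ (n := 2) a1) hC.e0.le]
  have h8 : |cr (S.push ν) (un u)| ≤ δ := by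
    by_contra h9
    push Not at h9
    have e1 : u ≠ u₀ := by rintro rfl; linarith
    have e2 : u ≠ -u₀ := by
      rintro rfl
      rw [un_neg, cr_neg, abs_neg] at h9
      linarith
    have h10 := hP.two hu₀ hu e1 e2 (h5.trans (h9.le.trans h6)) h6
    have hR0 : 0 ≤ R := (norm_nonneg _).trans h4.1
    refine h3 (hP.ball ?_)
    have h11 : ‖((S.push ν : GaussianInt) : ℂ)‖ ≤ 3 / 8 * R := by
      refine le_of_mul_le_mul_left ?_ hC.e0
      linarith
    nlinarith [hC.c2]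
  have := mul_le_mul_of_nonneg_left h8 (show 0 ≤ 1 - ε / 2 by linarith)
  linarith

theorem stepA : StepAStmt := by
  classical
  intro S S' m ε c η κ hC hP hG hH
  obtain ⟨D, lam, hD, hlam⟩ := exists_section S
  refine ⟨S.n.factorial * Real.exp (D ^ 2), D, D / κ, by positivity, hD, ?_⟩
  intro R δ δ' hR hδ τ hτ0 hτ1 x hx hsupp
  have hR' : D ≤ κ * R := by
    rw [div_le_iff₀ hC.k0] at hR
    linarith
  obtain ⟨f, f', hf, hf', rfl⟩ := hx
  set x : X := S.Phi f - S'.Phi f' with hxdef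
  have hinv : ∀ π ζ s, S.Glob π ζ s → ∀ μ, x (Sum.inl (act ζ s μ)) = x (Sum.inl μ) := by
    intro π ζ s h μ
    obtain ⟨π', h'⟩ := hH π ζ s h
    simp only [hxdef, Finsupp.sub_apply, Phi_act S h hf, Phi_act S' h' hf']
  let Z : Finset GaussianInt := x.support.toLeft.filter fun μ => ¬ Om m c R δ' μ
  have hZ : ∀ μ, μ ∈ Z ↔ x (Sum.inl μ) ≠ 0 ∧ ¬ Om m c R δ' μ := fun μ => by
    simp only [Z, Finset.mem_filter, Finset.mem_toLeft, Finsupp.mem_support_iff]
  let G : Finset (Perm (Fin S.n)) := Finset.univ.filter fun π => ∃ ζ s, S.Glob π ζ s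
  have hG1 : (1 : ℝ) ≤ G.card := by
    have : (1 : Perm (Fin S.n)) ∈ G :=
      Finset.mem_filter.2 ⟨Finset.mem_univ _, 1, false, by simp, fun i => by simp [act]⟩
    exact_mod_cast Finset.card_pos.2 ⟨_, this⟩
  have key : ∀ μ ∈ Z, S.L m c R (lam μ) ∧ ∀ π : Perm (Fin S.n),
      (∃ ζ s, S.Glob π ζ s) ∨ Om m c R δ' (S.push (lam μ ∘ π)) := by
    intro μ hμ
    obtain ⟨h1, h2⟩ := (hZ μ).1 hμ
    refine land hC hP hG hD hR' hδ ?_ ?_ ?_ <;> rw [(hlam μ).1]
    exacts [(hlam μ).2, hsupp μ h1, h2]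
  let y : Wt S.n →₀ ℝ := ∑ μ ∈ Z, (x (Sum.inl μ) / G.card) • msym (lam μ)
  refine ⟨S.Phi y - S'.Phi 0, ⟨y, 0, sym_sum _ fun μ _ => (sym_msym _).smul _, sym_zero, ?_,
    fun ν h => (h rfl).elim, rfl, ?_⟩, ?_⟩
  · intro ν hν
    simp only [y, Finsupp.finsetSum_apply] at hν
    obtain ⟨μ, hμ, h⟩ := Finset.exists_ne_zero_of_sum_ne_zero hν
    rw [Finsupp.smul_apply, smul_eq_mul] at h
    obtain ⟨π, rfl⟩ := msym_ne (right_ne_zero_of_mul h)
    exact (key μ hμ).1.perm π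
  · have e0 : S'.cost τ 0 = 0 := wn_zero
    rw [e0, add_zero]
    refine (wn_sum_le (fun _ => (Real.exp_pos _).le) _ _).trans ?_
    have e1 : ∑ μ ∈ Z, |x (Sum.inl μ)| * Real.exp (τ * (μ.norm : ℝ)) ≤ nrm τ x := by
      have e2 : ∑ μ ∈ Z, |x (Sum.inl μ)| * Real.exp (τ * (μ.norm : ℝ)) =
          ∑ w ∈ Z.map Function.Embedding.inl, |x w| *
            Sum.elim (fun μ : GaussianInt => Real.exp (τ * (μ.norm : ℝ)))
              (fun _ : ZMod 4 => 1) w := by
        rw [Finset.sum_map]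
        rfl
      rw [e2]
      refine Finset.sum_le_sum_of_subset_of_nonneg (fun w hw => ?_)
        fun w _ _ => mul_nonneg (abs_nonneg _) (nrm_w_nonneg τ w)
      obtain ⟨μ, hμ, rfl⟩ := Finset.mem_map.1 hw
      exact Finsupp.mem_support_iff.2 ((hZ μ).1 hμ).1
    refine le_trans ?_ (mul_le_mul_of_nonneg_left e1 (by positivity))
    rw [Finset.mul_sum]
    refine Finset.sum_le_sum fun μ _ => ?_
    rw [wn_smul]
    have e3 : |x (Sum.inl μ) / G.card| ≤ |x (Sum.inl μ)| := by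
      rw [abs_div, Nat.abs_cast]
      exact div_le_self (abs_nonneg _) hG1
    have e4 : Real.exp (τ * (S.N * nsq (lam μ))) ≤
        Real.exp (D ^ 2) * Real.exp (τ * (μ.norm : ℝ)) := by
      rw [← Real.exp_add, Real.exp_le_exp]
      have := mul_le_mul_of_nonneg_left (hlam μ).2 hτ0
      nlinarith [sq_nonneg D]
    have e5 := (S.cost_msym τ (lam μ)).trans
      (mul_le_mul_of_nonneg_left e4 (Nat.cast_nonneg S.n.factorial))
    calc _ ≤ |x (Sum.inl μ)| *
          (S.n.factorial * (Real.exp (D ^ 2) * Real.exp (τ * (μ.norm : ℝ)))) :=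
          mul_le_mul e3 e5 (wn_nonneg (fun _ => (Real.exp_pos _).le) _) (abs_nonneg _)
      _ = _ := by ring
  · intro μ' hμ'
    by_contra hO
    refine hμ' ?_
    rw [map_zero, sub_zero, Finsupp.sub_apply, sub_eq_zero]
    simp only [y, map_sum, map_smul, Finsupp.finsetSum_apply, Finsupp.smul_apply,
      Side.Phi_msym_inl, smul_eq_mul, Finset.mul_sum]
    rw [Finset.sum_comm, ← Finset.sum_subset (Finset.subset_univ G)]
    · have e : ∀ π ∈ G, (∑ μ ∈ Z, x (Sum.inl μ) / G.card *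
          if S.push (lam μ ∘ π) = μ' then 1 else 0) = x (Sum.inl μ') / G.card := by
        intro π hπ
        obtain ⟨ζ, s, h⟩ := (Finset.mem_filter.1 hπ).2
        obtain ⟨ζ', -, h1, h2⟩ := act_surj h.1 s
        have h3 : x (Sum.inl (act ζ' s μ')) = x (Sum.inl μ') := by
          rw [← hinv π ζ s h, h1]
        rw [Finset.sum_eq_single (act ζ' s μ')]
        · rw [h.push, (hlam _).1, h1, if_pos rfl, mul_one, h3]
        · intro μ _ hμ
          rw [h.push, (hlam _).1, if_neg, mul_zero]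
          rintro rfl
          exact hμ (h2 μ).symm
        · intro hμ
          rw [hZ, not_and_or, not_not, not_not] at hμ
          rcases hμ with hμ | hμ
          · rw [hμ, zero_div, zero_mul]
          · exact (hO (h1 μ' ▸ Om_act hP h.1 s hμ)).elim
      rw [Finset.sum_congr rfl e, Finset.sum_const, nsmul_eq_mul]
      field_simp
    · intro π _ hπ
      refine Finset.sum_eq_zero fun μ hμ => ?_
      rw [if_neg, mul_zero]
      rintro rfl
      exact hO (((key μ hμ).2 π).resolve_left fun h =>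
        hπ (Finset.mem_filter.2 ⟨Finset.mem_univ _, h⟩))

end Pool.Agent.MP_caba0b_al.H20
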